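import Pool.Agent.H7.HZ.Stmts

/-!
# Board hz12, row BLK: a graph with many triangles has a block
-/

set_option autoImplicit false

open Finset

namespace Pool.HZ7

open Pool.Agent.H23.KT Pool.Agent.H46.KW Pool.KQ Pool.GT7 Pool.GU7

theorem BLK_thm (hW : WSGStmt) (hF : FNDStmt) (hA : ARRStmt) (hC : CORStmt) (hE : EXPStmt)
    (hN : NAVStmt) : BLKStmt := by
  intro p r hP
  obtain ⟨C, hC0, hWSG0⟩ := hW p r hP
  obtain ⟨ε, C₅, hε, hC₅, hFND0⟩ := hF p r hP C hC0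
  obtain ⟨K, hK, a₁, hNAV⟩ := hN p r hP
  have he : (0 : ℝ) < 1 / (8 * ((p : ℝ) + 3)) := by positivity
  have he8 : 1 / (8 * ((p : ℝ) + 3)) ≤ 1 / 8 := by
    apply one_div_le_one_div_of_le (by norm_num)
    have : (0 : ℝ) ≤ p := Nat.cast_nonneg p
    linarith
  obtain ⟨a₂, hWSG⟩ := hWSG0 ε (1 / (8 * ((p : ℝ) + 3))) K hε he he8
  obtain ⟨a₃, hFND⟩ := hFND0 (1 / (8 * ((p : ℝ) + 3))) he le_rfl
  obtain ⟨C₆, hC₆, a₄, hCOR⟩ := hC p r hP C C₅ hC0 hC₅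
  obtain ⟨C', hC', a₅, hEXP⟩ := hE p r hP C₆ hC₆
  refine ⟨C', hC', max a₁ (max a₂ (max a₃ (max a₄ a₅))), ?_⟩
  intro a ha V _ _ G hG hV hk
  have g1 : a₁ ≤ a := le_trans (le_max_left _ _) ha
  have g1' := le_trans (le_max_right _ _) ha
  have g2 : a₂ ≤ a := le_trans (le_max_left _ _) g1'
  have g2' := le_trans (le_max_right _ _) g1'
  have g3 : a₃ ≤ a := le_trans (le_max_left _ _) g2'
  have g3' := le_trans (le_max_right _ _) g2'
  have g4 : a₄ ≤ a := le_trans (le_max_left _ _) g3'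
  have g5 : a₅ ≤ a := le_trans (le_max_right _ _) g3'
  obtain ⟨hkx, hav⟩ := hNAV a g1
  have hsum : ∑ v, df G p 0 r a (nb G univ v) ≤ (lz p r * a + K) * Fintype.card V := by
    have h0 : ∑ v, (kc G (nb G univ v) 2 : ℝ) = 3 * (kc G univ 3 : ℝ) := by
      have := kc_sum (G := G) (univ : Finset V) 2
      have h1 : ((∑ v ∈ (univ : Finset V), kc G (nb G univ v) 2 : ℕ) : ℝ) =
          (((2 + 1) * kc G univ (2 + 1) : ℕ) : ℝ) := by rw [this]
      push_cast at h1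
      rw [h1]
    have h1 : ∑ v, df G p 0 r a (nb G univ v) =
        (Fintype.card V : ℝ) * (TT (p + 3) 2 a r : ℝ) - 3 * (kc G univ 3 : ℝ) := by
      unfold df
      rw [sum_sub_distrib, sum_const, card_univ, nsmul_eq_mul]
      simp only [Nat.zero_add]
      rw [h0]
    have hR : (0 : ℝ) < ((((p + 3) * a + r + a + 1 : ℕ)) : ℝ) := by
      exact_mod_cast Nat.succ_pos _
    have hV0 : (0 : ℝ) ≤ (Fintype.card V : ℝ) := Nat.cast_nonneg _
    refine le_of_mul_le_mul_right ?_ hR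
    rw [h1]
    have h2 := mul_le_mul_of_nonneg_left hav hV0
    nlinarith [h2, hk]
  obtain ⟨D, P, hD, hDc⟩ := hWSG a g2 G hG hsum
  obtain ⟨κ, h1, h2, h3, h4⟩ := hFND a g3 G hG hV D P hD hDc
  obtain ⟨A, hA'⟩ := hA G p r a _ C C₅ D P κ hC0 hC₅ he.le hD h1 h2 h3 h4
  obtain ⟨Q, hQ⟩ := hCOR a g4 G _ D P κ A hG he he8 hD hA'
  exact hEXP a g5 G Q hG hQ

end Pool.HZ7
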